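import Pool.Agent.H505R5.PC.AE
import Pool.Agent.H505R5.PC.BC
import Pool.Agent.H505R5.PC.CHAR
import Pool.Agent.H505R5.PC.CNT
import Pool.Agent.H505R5.PC.CX
import Pool.Agent.H505R5.PC.FIN
import Pool.Agent.H505R5.PC.HIGH
import Pool.Agent.H505R5.PC.HLD
import Pool.Agent.H505R5.PC.HOL
import Pool.Agent.H505R5.PC.IND
import Pool.Agent.H505R5.PC.JEN
import Pool.Agent.H505R5.PC.LEN
import Pool.Agent.H505R5.PC.LOW
import Pool.Agent.H505R5.PC.M1
import Pool.Agent.H505R5.PC.M2
import Pool.Agent.H505R5.PC.M3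
import Pool.Agent.H505R5.PC.MOMZ
import Pool.Agent.H505R5.PC.NUM1
import Pool.Agent.H505R5.PC.NUM2
import Pool.Agent.H505R5.PC.NUM3
import Pool.Agent.H505R5.PC.PRM
import Pool.Agent.H505R5.PC.PS
import Pool.Agent.H505R5.PC.Q2B
import Pool.Agent.H505R5.PC.Q4B
import Pool.Agent.H505R5.PC.REP
import Pool.Agent.H505R5.PC.RHO
import Pool.Agent.H505R5.PC.RNK
import Pool.Agent.H505R5.PC.ST
import Pool.Agent.H505R5.PC.VH
import Pool.Agent.H505R5.PC.VL

/-! Answer to the question of Bloom and Walker: additive energy `O(N ^ 3 / (log N) ^ C)` with any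
`C > 1` implies metric Poissonian pair correlations. -/

set_option autoImplicit false

namespace Pool.Agent.Results.MP_ab562c_nt.MetricPoissonian

open MeasureTheory Finset Filter Topology Asymptotics
open Pool.Agent.H505R5.PC

/-- Part 1 (the question of Bloom and Walker, answered affirmatively): let `C > 1` and let
`a 0, a 1, a 2, ...` be distinct integers such that the additive energy of the first `N` terms,
the number of quadruples `(i, j, k, l)` of indices below `N` with `a i + a j = a k + a l`, is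
`O(N ^ 3 / (log N) ^ C)`. Then for almost every real `α` the sequence of the fractional parts of
`a n * α` has Poissonian pair correlations: for every `s > 0`
the number of pairs `(k, l)` of distinct indices below `N` such that the distance of
`{a k α} - {a l α}` to the nearest integer is less than `s / N`, divided by `N`, tends to `2 s`.

Part 2 (why the terms have to be distinct): if repetitions are allowed there is, for trivial
reasons, a sequence of integers whose energy is `O(N ^ 3 / (log N) ^ C)` for every `C` such that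
for no `α` are the pair correlations Poissonian. -/
theorem result :
    (∀ C : ℝ, 1 < C → ∀ a : ℕ → ℤ, Function.Injective a →
      (fun N : ℕ => ((((range N ×ˢ range N) ×ˢ (range N ×ˢ range N)).filter
        (fun p => a p.1.1 + a p.1.2 = a p.2.1 + a p.2.2)).card : ℝ)) =O[atTop]
          (fun N : ℕ => (N : ℝ) ^ 3 / (Real.log N) ^ C) →
      ∀ᵐ α : ℝ, ∀ s : ℝ, 0 < s →
        Tendsto (fun N : ℕ => (1 / (N : ℝ)) * ((((range N) ×ˢ (range N)).filter
          (fun p => p.1 ≠ p.2 ∧
            |Int.fract (a p.1 * α) - Int.fract (a p.2 * α) -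
              round (Int.fract (a p.1 * α) - Int.fract (a p.2 * α))| < s / N)).card : ℝ))
          atTop (𝓝 (2 * s))) ∧
    (∃ a : ℕ → ℤ,
      (∀ C : ℝ, (fun N : ℕ => ((((range N ×ˢ range N) ×ˢ (range N ×ˢ range N)).filter
        (fun p => a p.1.1 + a p.1.2 = a p.2.1 + a p.2.2)).card : ℝ)) =O[atTop]
          (fun N : ℕ => (N : ℝ) ^ 3 / (Real.log N) ^ C)) ∧
      ∀ α : ℝ, ¬ ∀ s : ℝ, 0 < s →
        Tendsto (fun N : ℕ => (1 / (N : ℝ)) * ((((range N) ×ˢ (range N)).filter
          (fun p => p.1 ≠ p.2 ∧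
            |Int.fract (a p.1 * α) - Int.fract (a p.2 * α) -
              round (Int.fract (a p.1 * α) - Int.fract (a p.2 * α))| < s / N)).card : ℝ))
          atTop (𝓝 (2 * s))) := by
  have hHOL : S_HOL := t_HOL t_CHAR t_MOMZ t_HLD
  have hQ4 : S_Q4B := t_Q4B (t_CX t_ST)
  have hM2 : S_M2 := t_M2 t_M1
  have hVL : S_VL := t_VL t_M1 hM2
  have hVH : S_VH := t_VH t_M1 hM2 t_M3
  have hLEN : S_LEN := t_LEN t_IND t_JEN
  have hRHO : S_RHO := t_RHO hLEN t_PRM t_RNK
  have hLOW : S_LOW := t_LOW hVL hHOL t_Q2B hQ4 t_CNT t_NUM3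
  have hHIGH : S_HIGH := t_HIGH hVH hHOL t_Q2B hQ4 t_CNT hRHO t_NUM1 t_NUM2
  have hPS : S_PS := t_PS t_CNT hLOW hHIGH
  have hFIN : S_FIN := t_FIN (t_AE (t_BC hPS))
  refine ⟨?_, REPa, REP_bigO, REP_not⟩
  intro C hC a ha hE
  exact hFIN C hC a ha hE

end Pool.Agent.Results.MP_ab562c_nt.MetricPoissonian
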